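import Mathlib
import Pool.Agent.TH787.GaugeSet

set_option autoImplicit false

/-!
Subsets of finite positive Hausdorff measure for arbitrary (nonanalytic) sets of reals: for a gauge
function `f`, every set of positive measure `H^f` has a subset of finite positive measure if and
only if `f t / t` does not tend to infinity at `0`. In particular the statement `(∗)` fails in ZFC.
-/

open MeasureTheory Set Topology Filter
open scoped ENNReal

namespace Pool.Agent.Results.MP_b87f19_lc.GaugeDichotomy

/-- Gauge functions (only the values on `[0, ∞)` matter). -/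
structure IsGauge (f : ℝ → ℝ) : Prop where
  zero : f 0 = 0
  pos : ∀ t, 0 < t → 0 < f t
  mono : MonotoneOn f (Ici 0)
  rightCont : ∀ t, 0 ≤ t → ContinuousWithinAt f (Ici t) t

/-- `H^f_δ(A)`: the infimum of the sums `∑ f (diam U i)` over the countable covers of `A` by sets
of diameter at most `δ`. -/
noncomputable def HDelta (f : ℝ → ℝ) (δ : ℝ) (A : Set ℝ) : ℝ≥0∞ :=
  ⨅ (U : ℕ → Set ℝ) (_ : A ⊆ ⋃ i, U i) (_ : ∀ i, Metric.ediam (U i) ≤ ENNReal.ofReal δ),
    ∑' i, ENNReal.ofReal (f (Metric.diam (U i)))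

/-- The Hausdorff outer measure `H^f(A)`, the limit (supremum) of `H^f_δ(A)` as `δ → 0+`. -/
noncomputable def H (f : ℝ → ℝ) (A : Set ℝ) : ℝ≥0∞ := ⨆ (δ : ℝ) (_ : 0 < δ), HDelta f δ A

/-- Every set of positive measure has a subset of finite positive measure. -/
def HasFiniteSubsets (f : ℝ → ℝ) : Prop :=
  ∀ A : Set ℝ, 0 < H f A → ∃ A₀ ⊆ A, 0 < H f A₀ ∧ H f A₀ < ∞

/-- The function of the diameter which defines the measure. -/
noncomputable def gm (f : ℝ → ℝ) : ℝ≥0∞ → ℝ≥0∞ := fun x => ENNReal.ofReal (f x.toReal)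

theorem H_eq {f : ℝ → ℝ} (hf : IsGauge f) (A : Set ℝ) : H f A = Measure.mkMetric (gm f) A := by
  rw [Measure.mkMetric_apply]
  have hterm : ∀ U : Set ℝ, (⨆ _ : U.Nonempty, gm f (Metric.ediam U)) =
      ENNReal.ofReal (f (Metric.diam U)) := by
    intro U
    rcases U.eq_empty_or_nonempty with rfl | hU
    · simp [hf.zero]
    · simp only [hU, iSup_pos]
      rfl
  simp only [hterm]
  unfold H HDelta
  apply le_antisymm
  · refine iSup₂_le fun δ hδ => ?_
    exact le_iSup₂_of_le (ENNReal.ofReal δ) (ENNReal.ofReal_pos.mpr hδ) le_rfl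
  · refine iSup₂_le fun r hr => ?_
    obtain ⟨δ, hδ, hδr⟩ : ∃ δ : ℝ, 0 < δ ∧ ENNReal.ofReal δ ≤ r := by
      rcases eq_or_ne r ∞ with rfl | hr'
      · exact ⟨1, one_pos, le_top⟩
      · exact ⟨r.toReal, ENNReal.toReal_pos hr.ne' hr', by rw [ENNReal.ofReal_toReal hr']⟩
    refine le_iSup₂_of_le δ hδ ?_
    refine le_iInf fun U => le_iInf fun hU => le_iInf fun hd => ?_
    exact iInf_le_of_le U (iInf_le_of_le hU (iInf_le_of_le (fun i => (hd i).trans hδr) le_rfl))

theorem singleton_zero {f : ℝ → ℝ} (hf : IsGauge f) (x : ℝ) : H f {x} = 0 := by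
  rw [← nonpos_iff_eq_zero]
  refine iSup₂_le fun δ hδ => ?_
  refine iInf_le_of_le (fun _ => {x}) (iInf_le_of_le (fun y hy => mem_iUnion.mpr ⟨0, hy⟩)
    (iInf_le_of_le (fun i => by simp) ?_))
  simp [hf.zero]

/-- If `f t / t` tends to infinity at `0` then there is a universally null set of positive
measure, all of whose subsets have measure zero or infinity. -/
theorem fails {f : ℝ → ℝ} (hf : IsGauge f) (hlim : Tendsto (fun t => f t / t) (𝓝[>] 0) atTop) :
    ¬ HasFiniteSubsets f := by
  obtain ⟨E, φ, δ, hδ, hUN, hφ, hsmall⟩ := Pool.Agent.TH787.GaugeSet.exists_set f hf.zero hlim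
  intro hfin
  have hpos : 0 < H f E := by
    rw [pos_iff_ne_zero]
    intro h0
    apply hφ
    have h1 : volume (φ '' E) ≤ 9 * HDelta f δ E := by
      unfold HDelta
      rw [ENNReal.mul_iInf_of_ne (by norm_num) (by norm_num)]
      refine le_iInf fun U => ?_
      rw [ENNReal.mul_iInf_of_ne (by norm_num) (by norm_num)]
      refine le_iInf fun hU => ?_
      rw [ENNReal.mul_iInf_of_ne (by norm_num) (by norm_num)]
      refine le_iInf fun hd => ?_
      have hcov : φ '' E ⊆ ⋃ i, φ '' (E ∩ U i) := by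
        rintro _ ⟨e, he, rfl⟩
        obtain ⟨i, hi⟩ := mem_iUnion.mp (hU he)
        exact mem_iUnion.mpr ⟨i, e, ⟨he, hi⟩, rfl⟩
      refine (measure_mono hcov).trans ((measure_iUnion_le _).trans ?_)
      rw [← ENNReal.tsum_mul_left]
      refine ENNReal.tsum_le_tsum fun i => ?_
      have hne : Metric.ediam (U i) ≠ ∞ := ((hd i).trans_lt ENNReal.ofReal_lt_top).ne
      refine hsmall (E ∩ U i) inter_subset_left (Metric.diam (U i)) ?_ Metric.diam_nonneg ?_
      · intro e he e' he'
        rw [← Real.dist_eq]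
        exact Metric.dist_le_diam_of_mem' hne he.2 he'.2
      · exact ENNReal.toReal_le_of_le_ofReal hδ.le (hd i)
    have h2 : HDelta f δ E = 0 := by
      rw [← nonpos_iff_eq_zero, ← h0]
      exact le_iSup₂_of_le δ hδ le_rfl
    rw [h2, mul_zero] at h1
    exact nonpos_iff_eq_zero.mp h1
  obtain ⟨A₀, hA, hA0, hAfin⟩ := hfin E hpos
  rw [H_eq hf] at hA0 hAfin
  set μ : Measure ℝ := Measure.mkMetric (gm f) with hμ
  set B := toMeasurable μ A₀ with hB
  have hBfin : μ B < ∞ := by rwa [hB, measure_toMeasurable]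
  have hfinite : IsFiniteMeasure (μ.restrict B) :=
    ⟨by rwa [Measure.restrict_apply_univ]⟩
  have hat : Pool.Agent.Results.MP_f79ffc_lc.AddUN.Atomless (μ.restrict B) := by
    intro x
    refine measure_mono_null (Subset.refl _) ?_
    have h1 : μ {x} = 0 := by
      rw [hμ, ← H_eq hf]
      exact singleton_zero hf x
    exact nonpos_iff_eq_zero.mp ((Measure.restrict_apply_le _ _).trans h1.le)
  have h0 := hUN.finite (μ.restrict B) hat
  have h1 : (μ.restrict B) A₀ = 0 := measure_mono_null hA h0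
  rw [Measure.restrict_apply' (measurableSet_toMeasurable _ _),
    inter_eq_left.mpr (subset_toMeasurable μ A₀)] at h1
  exact hA0.ne' h1

/-- If `f t / t` does not tend to infinity at `0` then bounded intervals have finite measure. -/
theorem interval_finite {f : ℝ → ℝ} (hf : IsGauge f)
    (hlim : ¬ Tendsto (fun t => f t / t) (𝓝[>] 0) atTop) (a : ℝ) : H f (Icc a (a + 1)) < ∞ := by
  rw [tendsto_atTop] at hlim
  push Not at hlim
  obtain ⟨C, hC⟩ := hlim
  have h1 : H f (Icc a (a + 1)) ≤ ENNReal.ofReal (2 * |C|) := by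
    refine iSup₂_le fun δ hδ => ?_
    have hmem : Ioo (0 : ℝ) (min δ 1) ∈ 𝓝[>] (0 : ℝ) := Ioo_mem_nhdsGT (by positivity)
    obtain ⟨t, htC, ht0, ht1⟩ := (hC.and_eventually hmem).exists
    rw [div_lt_iff₀ ht0] at htC
    have htδ : t < δ := ht1.trans_le (min_le_left _ _)
    have ht1' : t < 1 := ht1.trans_le (min_le_right _ _)
    set N := ⌊1 / t⌋₊ + 1 with hN
    let U : ℕ → Set ℝ := fun i => if i < N then Icc (a + i * t) (a + (i + 1) * t) else ∅
    have hUd : ∀ i, Metric.ediam (U i) ≤ ENNReal.ofReal δ := by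
      intro i
      simp only [U]
      split_ifs
      · rw [Real.ediam_Icc]
        apply ENNReal.ofReal_le_ofReal
        linarith
      · simp
    refine iInf_le_of_le U (iInf_le_of_le ?_ (iInf_le_of_le hUd ?_))
    · intro x hx
      have hx0 : 0 ≤ (x - a) / t := div_nonneg (by linarith [hx.1]) ht0.le
      set i := ⌊(x - a) / t⌋₊ with hi
      have hi1 : (i : ℝ) ≤ (x - a) / t := Nat.floor_le hx0
      have hi2 : (x - a) / t < i + 1 := Nat.lt_floor_add_one _
      rw [le_div_iff₀ ht0] at hi1
      rw [div_lt_iff₀ ht0] at hi2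
      have hiN : i < N := by
        rw [hN, Nat.lt_succ_iff, hi]
        apply Nat.floor_mono
        exact div_le_div_of_nonneg_right (by linarith [hx.2]) ht0.le
      refine mem_iUnion.mpr ⟨i, ?_⟩
      simp only [U, if_pos hiN]
      exact ⟨by linarith, by linarith⟩
    · rw [tsum_eq_sum (s := Finset.range N)]
      · have h2 : ∀ i ∈ Finset.range N, ENNReal.ofReal (f (Metric.diam (U i))) ≤
            ENNReal.ofReal (|C| * t) := by
          intro i hi
          apply ENNReal.ofReal_le_ofReal
          simp only [U, if_pos (Finset.mem_range.mp hi)]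
          rw [Real.diam_Icc (by nlinarith)]
          have : a + (i + 1) * t - (a + i * t) = t := by ring
          rw [this]
          exact htC.le.trans (mul_le_mul_of_nonneg_right (le_abs_self C) ht0.le)
        refine (Finset.sum_le_sum h2).trans ?_
        rw [Finset.sum_const, Finset.card_range, ← ENNReal.ofReal_nsmul]
        apply ENNReal.ofReal_le_ofReal
        rw [nsmul_eq_mul]
        have h3 : (N : ℝ) * t ≤ 2 := by
          have h4 : (⌊1 / t⌋₊ : ℝ) ≤ 1 / t := Nat.floor_le (by positivity)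
          rw [le_div_iff₀ ht0] at h4
          rw [hN]
          push_cast
          linarith
        have h5 := abs_nonneg C
        calc (N : ℝ) * (|C| * t) = (N * t) * |C| := by ring
          _ ≤ 2 * |C| := mul_le_mul_of_nonneg_right h3 h5
      · intro i hi
        simp only [U, if_neg (fun h => hi (Finset.mem_range.mpr h))]
        simp [hf.zero]
  exact h1.trans_lt ENNReal.ofReal_lt_top

theorem holds {f : ℝ → ℝ} (hf : IsGauge f)
    (hlim : ¬ Tendsto (fun t => f t / t) (𝓝[>] 0) atTop) : HasFiniteSubsets f := by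
  intro A hA
  rw [H_eq hf] at hA
  set μ : Measure ℝ := Measure.mkMetric (gm f) with hμ
  have h1 : ∃ n : ℤ, μ (A ∩ Icc (n : ℝ) (n + 1)) ≠ 0 := by
    by_contra hcon
    push Not at hcon
    apply hA.ne'
    have h2 : A ⊆ ⋃ n : ℤ, A ∩ Icc (n : ℝ) (n + 1) := by
      intro x hx
      exact mem_iUnion.mpr ⟨⌊x⌋, hx, Int.floor_le x, (Int.lt_floor_add_one x).le⟩
    exact measure_mono_null h2 (measure_iUnion_null hcon)
  obtain ⟨n, hn⟩ := h1
  refine ⟨A ∩ Icc (n : ℝ) (n + 1), inter_subset_left, ?_, ?_⟩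
  · rw [H_eq hf]
    exact pos_iff_ne_zero.mpr hn
  · have h3 := interval_finite hf hlim n
    rw [H_eq hf] at h3 ⊢
    exact (measure_mono inter_subset_right).trans_lt h3

theorem sqrt_gauge : IsGauge Real.sqrt where
  zero := Real.sqrt_zero
  pos := fun _ ht => Real.sqrt_pos.mpr ht
  mono := fun _ _ _ _ h => Real.sqrt_le_sqrt h
  rightCont := fun _ _ => Real.continuous_sqrt.continuousWithinAt

theorem sqrt_lim : Tendsto (fun t => Real.sqrt t / t) (𝓝[>] 0) atTop := by
  have h1 : (fun t : ℝ => Real.sqrt t / t) =ᶠ[𝓝[>] 0] fun t => (Real.sqrt t)⁻¹ := by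
    filter_upwards [self_mem_nhdsWithin] with t ht
    have ht' : (0 : ℝ) < t := ht
    have h2 := Real.mul_self_sqrt ht'.le
    have h3 := Real.sqrt_pos.mpr ht'
    field_simp
    nlinarith
  refine Tendsto.congr' h1.symm ?_
  apply Filter.Tendsto.inv_tendsto_nhdsGT_zero
  rw [tendsto_nhdsWithin_iff]
  constructor
  · have h4 : Tendsto Real.sqrt (𝓝 0) (𝓝 0) := by
      simpa using Real.continuous_sqrt.tendsto 0
    exact h4.mono_left nhdsWithin_le_nhds
  · filter_upwards [self_mem_nhdsWithin] with t ht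
    exact Real.sqrt_pos.mpr ht

/-- It is false that for every gauge function `f`, every set of reals of positive measure `H^f` has
a subset of finite positive measure. More precisely, for a gauge function `f` this property holds
if and only if `f t / t` does not tend to infinity as `t → 0+`. -/
theorem result : (¬ ∀ f : ℝ → ℝ, IsGauge f → HasFiniteSubsets f) ∧
    ∀ f : ℝ → ℝ, IsGauge f →
      (HasFiniteSubsets f ↔ ¬ Tendsto (fun t => f t / t) (𝓝[>] 0) atTop) :=
  ⟨fun h => fails sqrt_gauge sqrt_lim (h _ sqrt_gauge),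
    fun _ hf => ⟨fun h hlim => fails hf hlim h, fun hlim => holds hf hlim⟩⟩

end Pool.Agent.Results.MP_b87f19_lc.GaugeDichotomy
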